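import Pool.Agent.Y112.SR.Defs

/-!
# Algebraic classes in families of noncommutative motives: definitions
-/

set_option autoImplicit false

open CategoryTheory Limits MonoidalCategory

namespace Pool.Agent.Q26.VH

open Pool.Agent.Y112.SR

universe v u w v₀ u₀ w₀

section

variable {C : Type u} [Category.{v} C] [Preadditive C] [MonoidalCategory C] [SymmetricCategory C]
  {K : Type w} [Field K]

/-- The class of the morphism `z` from the unit to `N` (for noncommutative Chow motives: an element
of `K_0(N)` with rational coefficients) in the realisation of `N`. -/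
noncomputable def cl (R : SuperRealisation C K) {N : C} (z : 𝟙_ C ⟶ N) : R.H.obj N :=
  (Functor.LaxMonoidal.ε R.H ≫ R.H.map z).hom (1 : K)

/-- The class `v` in the realisation of `N` is algebraic. -/
def IsAlg (R : SuperRealisation C K) (N : C) (v : R.H.obj N) : Prop := ∃ z : 𝟙_ C ⟶ N, cl R z = v

/-- `z` is numerically trivial. -/
def NumZero {N : C} (z : 𝟙_ C ⟶ N) : Prop := ∀ c : N ⟶ 𝟙_ C, z ≫ c = 0

/-- Homological and numerical equivalence agree for the elements of `K_0(N)`. -/
def HomEqNum (R : SuperRealisation C K) (N : C) : Prop :=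
  ∀ z : 𝟙_ C ⟶ N, NumZero z → cl R z = 0

open Classical in
/-- The rational number `q` with `z = q • 1`, for an endomorphism `z` of the unit. -/
noncomputable def num [Linear ℚ C] (z : 𝟙_ C ⟶ 𝟙_ C) : ℚ :=
  if h : ∃ q : ℚ, z = q • 𝟙 (𝟙_ C) then h.choose else 0

/-- The rank of the matrix of the rational numbers `z ≫ c`, `z` in the set `Z` of morphisms from the
unit to `N` and `c` a morphism from `N` to the unit. -/
noncomputable def matRank [Linear ℚ C] {N : C} (Z : Set (𝟙_ C ⟶ N)) : ℕ :=
  Set.finrank ℚ ((fun z : 𝟙_ C ⟶ N => fun c : N ⟶ 𝟙_ C => num (z ≫ c)) '' Z)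

/-- Every endomorphism of the unit is a rational multiple of the identity. -/
def RationalUnit (C : Type u) [Category.{v} C] [Preadditive C] [Linear ℚ C]
    [MonoidalCategory C] : Prop :=
  ∀ z : 𝟙_ C ⟶ 𝟙_ C, ∃ q : ℚ, z = q • 𝟙 (𝟙_ C)

end

variable {C : Type u} [Category.{v} C] [Preadditive C] [MonoidalCategory C] [SymmetricCategory C]
  {C₀ : Type u₀} [Category.{v₀} C₀] [Preadditive C₀] [MonoidalCategory C₀] [SymmetricCategory C₀]
  {K : Type w} [Field K] {K₀ : Type w₀} [Field K₀]

/-- The data of a family, see `Fam`: the specializations `e t` in cohomology from the geometric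
generic fibre `M` to the fibres `F t`, the restrictions `r t` from the compactification `B` to the
fibres, and the monodromy operators on the cohomology of `M`. -/
structure FamData (R : SuperRealisation C K) (R₀ : SuperRealisation C₀ K₀) (M : C) {T : Type}
    (F : T → C₀) (B : C₀) where
  /-- the specialization in cohomology -/
  e : (t : T) → R.H.obj M ≃+ R₀.H.obj (F t)
  /-- the restriction to a fibre -/
  r : (t : T) → (B ⟶ F t)
  /-- the monodromy operators -/
  mono : Set (R.H.obj M ⟶ R.H.obj M)

section

variable {R : SuperRealisation C K} {R₀ : SuperRealisation C₀ K₀} {M : C} {T : Type} {F : T → C₀}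
  {B : C₀}

/-- The class `v` is invariant under the monodromy, that is, it is a global section of the local
system of the cohomology groups of the fibres. -/
def FamData.IsFlat (S : FamData R R₀ M F B) (v : R.H.obj M) : Prop :=
  ∀ g ∈ S.mono, g.hom v = v

/-- The algebraic classes on the geometric generic fibre specialize to all fibres. -/
def FamData.Specializes (S : FamData R R₀ M F B) : Prop :=
  ∀ v, IsAlg R M v → ∀ t, IsAlg R₀ (F t) (S.e t v)

/-- The restrictions of an element of `K_0(B)` to the fibres are the specializations of a flat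
algebraic class on the geometric generic fibre. -/
def FamData.Generic (S : FamData R R₀ M F B) : Prop :=
  ∀ z : 𝟙_ C₀ ⟶ B, ∃ v, IsAlg R M v ∧ S.IsFlat v ∧ ∀ t, S.e t v = cl R₀ (z ≫ S.r t)

/-- A flat algebraic class on the geometric generic fibre is given by an element of `K_0(B)`. -/
def FamData.Descent (S : FamData R R₀ M F B) : Prop :=
  ∀ v, IsAlg R M v → S.IsFlat v → ∃ z : 𝟙_ C₀ ⟶ B, ∀ t, S.e t v = cl R₀ (z ≫ S.r t)

/-- A flat class is given by a class in the cohomology of `B`. -/
def FamData.Fixed (S : FamData R R₀ M F B) : Prop :=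
  ∀ v, S.IsFlat v → ∃ h : R₀.H.obj B, ∀ t, S.e t v = (R₀.H.map (S.r t)).hom h

end

/-- A family of noncommutative motives over a smooth connected variety `S` over the algebraically
closed field `k₀`: `M` is the motive of the geometric generic fibre of a family of dg categories (for
example of admissible subcategories of `D_perf(X)`, `X` smooth and proper over `S`), `F t` is the one
of the fibre over the point `t`, and `B` is the motive of a smooth proper dg category over `k₀` which is
a compactification of the family, possibly after a generically finite base change (for `D_perf(X)`: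
`D_perf(Y)`, `Y` smooth and proper). `descent`: the class is defined over a finite extension of the
function field of `S`; take the trace and extend it to `B`. `fixed`: the theorem of Deligne on the
fixed part. -/
structure Fam (R : SuperRealisation C K) (R₀ : SuperRealisation C₀ K₀) (M : C) {T : Type}
    (F : T → C₀) (B : C₀) extends FamData R R₀ M F B where
  specializes : toFamData.Specializes
  generic : toFamData.Generic
  descent : toFamData.Descent
  fixed : toFamData.Fixed

variable {R : SuperRealisation C K} {R₀ : SuperRealisation C₀ K₀} {M : C} {T : Type} {F : T → C₀}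
  {B : C₀}

/-- The image in `B` of `c` (an element of `K_0` of the fibre over `o`, by duality) is
numerically trivial. -/
def NumTrivialIn (S : Fam R R₀ M F B) (o : T) (c : F o ⟶ 𝟙_ C₀) : Prop :=
  ∀ z : 𝟙_ C₀ ⟶ B, z ≫ S.r o ≫ c = 0

/-- The images in `B` of the elements of `K_0` of the fibre over `o` are homologically trivial if they
are numerically trivial. -/
def HomEqNumIn (S : Fam R R₀ M F B) (o : T) : Prop :=
  ∀ c : F o ⟶ 𝟙_ C₀, NumTrivialIn S o c → R₀.H.map (S.r o ≫ c) = 0

/-- The element `y` of `K_0` of the fibre over `o` is numerically equivalent to the restriction of an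
element of `K_0(B)`. -/
def Extends (S : Fam R R₀ M F B) (o : T) (y : 𝟙_ C₀ ⟶ F o) : Prop :=
  ∃ z : 𝟙_ C₀ ⟶ B, NumZero (y - z ≫ S.r o)

/-- The element `y` is orthogonal to the elements of `K_0` of the fibre over `o` whose images in `B`
are numerically trivial. -/
def Orthogonal (S : Fam R R₀ M F B) (o : T) (y : 𝟙_ C₀ ⟶ F o) : Prop :=
  ∀ c : F o ⟶ 𝟙_ C₀, NumTrivialIn S o c → y ≫ c = 0

/-- The elements of `K_0` of the fibre over `o` whose classes are the values at `o` of flat
classes. -/
def flatAlg (S : Fam R R₀ M F B) (o : T) : Set (𝟙_ C₀ ⟶ F o) :=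
  {y | ∃ v, S.IsFlat v ∧ S.e o v = cl R₀ y}

/-- The restrictions of the elements of `K_0(B)` to the fibre over `o`. -/
def restrictions (S : Fam R R₀ M F B) (o : T) : Set (𝟙_ C₀ ⟶ F o) :=
  Set.range fun z : 𝟙_ C₀ ⟶ B => z ≫ S.r o

/-- The variational Hodge conjecture for the point `o`: a flat class whose value at `o` is algebraic
is algebraic on the geometric generic fibre (and so at all points). -/
def VHC (S : Fam R R₀ M F B) (o : T) : Prop :=
  ∀ v, S.IsFlat v → IsAlg R₀ (F o) (S.e o v) → IsAlg R M v

end Pool.Agent.Q26.VH
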