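import Pool.Agent.Q26.VH.Defs
import Pool.Agent.Y112.SR.Main

/-!
# Algebraic classes in families of noncommutative motives
-/

set_option autoImplicit false
set_option linter.unusedSectionVars false
set_option backward.isDefEq.respectTransparency false
set_option backward.defeqAttrib.useBackward true

open CategoryTheory Limits MonoidalCategory

namespace Pool.Agent.Q26.VH

open Pool.Agent.Y112.SR

universe v u w v₀ u₀ w₀

open Functor.LaxMonoidal Functor.OplaxMonoidal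

section Lin

variable {K : Type*} [Field K] [CharZero K] {H : Type*} [AddCommGroup H] [Module K H]
  [Module.Finite K H] {M N : Type*} [AddCommGroup M] [Module ℚ M] [AddCommGroup N] [Module ℚ N]

/-- finiteness of the rank and duality for rational pairings -/
theorem finite_and_exists (f : N → H →ₗ[K] K) (g : M → H)
    (β : N →ₗ[ℚ] M →ₗ[ℚ] ℚ) (hβ : ∀ z c, ((β z c : ℚ) : K) = f z (g c)) :
    Module.Finite ℚ (LinearMap.range β) ∧ ∀ φ : M →ₗ[ℚ] ℚ,
      (∀ c, (∀ z, β z c = 0) → φ c = 0) → ∃ z, β z = φ := by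
  classical
  obtain ⟨s, hs, hspan, hli⟩ := exists_linearIndependent K (Set.range g)
  have hsf : Finite s := hli.setFinite
  have hch : ∀ x : s, ∃ c : M, g c = x := fun x => hs x.2
  choose γ hγ using hch
  let E : Module.Dual ℚ M →ₗ[ℚ] (s → ℚ) := LinearMap.pi fun x => LinearMap.applyₗ (γ x)
  have hinj : Function.Injective (E ∘ₗ (LinearMap.range β).subtype) := by
    rw [← LinearMap.ker_eq_bot, LinearMap.ker_eq_bot']
    rintro ⟨_, z, rfl⟩ hz
    have h1 : ∀ x : s, β z (γ x) = 0 := fun x => congrFun hz x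
    apply Subtype.ext
    apply LinearMap.ext
    intro c
    change β z c = 0
    have h2 : g c ∈ Submodule.span K s := by
      rw [hspan]
      exact Submodule.subset_span ⟨c, rfl⟩
    have h3 : ∀ y ∈ Submodule.span K s, f z y = 0 := by
      intro y hy
      induction hy using Submodule.span_induction with
      | mem x hx =>
        have h9 : f z (g (γ ⟨x, hx⟩)) = 0 := by rw [← hβ, h1, Rat.cast_zero]
        rwa [hγ] at h9
      | zero => rw [map_zero]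
      | add x y _ _ hx hy => rw [map_add, hx, hy, add_zero]
      | smul r x _ hx => rw [map_smul, hx, smul_zero]
    have h4 := h3 _ h2
    rw [← hβ] at h4
    exact_mod_cast h4
  have hfd : Module.Finite ℚ (LinearMap.range β) := Module.Finite.of_injective _ hinj
  refine ⟨hfd, fun φ h => ?_⟩
  obtain ⟨t, ht⟩ := (Module.Finite.iff_fg.1 hfd : (LinearMap.range β).FG)
  have h5 : φ ∈ Submodule.span ℚ (Set.range (fun x : t => (x : Module.Dual ℚ M))) := by
    apply mem_span_of_iInf_ker_le_ker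
    intro c hc
    rw [LinearMap.mem_ker]
    apply h
    intro z
    have h6 : β z ∈ Submodule.span ℚ (t : Set (Module.Dual ℚ M)) := by
      rw [ht]
      exact ⟨z, rfl⟩
    have h7 : ∀ ψ ∈ Submodule.span ℚ (t : Set (Module.Dual ℚ M)), ψ c = 0 := by
      intro ψ hψ
      induction hψ using Submodule.span_induction with
      | mem x hx =>
        have := (Submodule.mem_iInf _).1 hc ⟨x, hx⟩
        exact this
      | zero => rfl
      | add x y _ _ hx hy => rw [LinearMap.add_apply, hx, hy, add_zero]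
      | smul r x _ hx => rw [LinearMap.smul_apply, hx, smul_zero]
    exact h7 _ h6
  have h8 : Set.range (fun x : t => (x : Module.Dual ℚ M)) = (t : Set (Module.Dual ℚ M)) := by
    ext y
    simp
  rw [h8, ht] at h5
  exact h5

end Lin

section One

variable {C₀ : Type u₀} [Category.{v₀} C₀] [Preadditive C₀] [Linear ℚ C₀] [MonoidalCategory C₀]
  [SymmetricCategory C₀] {K₀ : Type w₀} [Field K₀] (R₀ : SuperRealisation C₀ K₀) {N B : C₀}

/-- the functional given by `c` -/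
noncomputable def fn (c : N ⟶ 𝟙_ C₀) : R₀.H.obj N →ₗ[K₀] K₀ := (R₀.H.map c ≫ η R₀.H).hom

lemma fn_cl (z : 𝟙_ C₀ ⟶ N) (c : N ⟶ 𝟙_ C₀) : fn R₀ c (cl R₀ z) = fn R₀ (z ≫ c) (cl R₀ (𝟙 _)) := by
  simp only [fn, cl, Functor.map_comp, CategoryTheory.Functor.map_id, Category.comp_id]
  rfl

lemma fn_smul_id [CharZero K₀] (q : ℚ) : fn R₀ (q • 𝟙 (𝟙_ C₀)) (cl R₀ (𝟙 _)) = q := by
  have h0 : R₀.H.map (q • 𝟙 (𝟙_ C₀)) = (q : K₀) • 𝟙 _ := by
    rw [R_smul, CategoryTheory.Functor.map_id]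
  have h1 : ε R₀.H ≫ R₀.H.map (𝟙 (𝟙_ C₀)) ≫ R₀.H.map (q • 𝟙 (𝟙_ C₀)) ≫ η R₀.H =
      (q : K₀) • 𝟙 _ := by
    rw [h0, CategoryTheory.Functor.map_id, Category.id_comp, Linear.smul_comp, Category.id_comp,
      Linear.comp_smul, Functor.Monoidal.ε_η]
  have h2 := LinearMap.congr_fun (congrArg ModuleCat.Hom.hom h1) (1 : K₀)
  change fn R₀ (q • 𝟙 (𝟙_ C₀)) (cl R₀ (𝟙 _)) = (q : K₀) • (1 : K₀) at h2
  rw [h2, smul_eq_mul, mul_one]

lemma num_spec (hC₀ : RationalUnit C₀) (z : 𝟙_ C₀ ⟶ 𝟙_ C₀) : z = num z • 𝟙 (𝟙_ C₀) := by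
  rw [num, dif_pos (hC₀ z)]
  exact (hC₀ z).choose_spec

lemma num_eq (hC₀ : RationalUnit C₀) (z : 𝟙_ C₀ ⟶ N) (c : N ⟶ 𝟙_ C₀) :
    (num (z ≫ c) : K₀) = fn R₀ c (cl R₀ z) := by
  have := R_charZero R₀
  rw [fn_cl, ← fn_smul_id R₀ (num (z ≫ c)), ← num_spec hC₀]

lemma cl_add (z z' : 𝟙_ C₀ ⟶ N) : cl R₀ (z + z') = cl R₀ z + cl R₀ z' := by
  simp only [cl, Functor.map_add, Preadditive.comp_add]
  rfl

lemma cl_sub (z z' : 𝟙_ C₀ ⟶ N) : cl R₀ (z - z') = cl R₀ z - cl R₀ z' := by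
  simp only [cl, Functor.map_sub, Preadditive.comp_sub]
  rfl

lemma cl_smul [CharZero K₀] (q : ℚ) (z : 𝟙_ C₀ ⟶ N) : cl R₀ (q • z) = (q : K₀) • cl R₀ z := by
  rw [cl, cl, R_smul, Linear.comp_smul]
  rfl

lemma cl_comp (z : 𝟙_ C₀ ⟶ B) (r : B ⟶ N) : cl R₀ (z ≫ r) = (R₀.H.map r).hom (cl R₀ z) := by
  simp only [cl, Functor.map_comp]
  rfl

lemma fn_add (c c' : N ⟶ 𝟙_ C₀) : fn R₀ (c + c') = fn R₀ c + fn R₀ c' := by
  simp only [fn, Functor.map_add, Preadditive.add_comp]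
  rfl

lemma fn_smul [CharZero K₀] (q : ℚ) (c : N ⟶ 𝟙_ C₀) : fn R₀ (q • c) = (q : K₀) • fn R₀ c := by
  rw [fn, fn, R_smul, Linear.smul_comp]
  rfl

include R₀ in
lemma num_zero_iff (hC₀ : RationalUnit C₀) (z : 𝟙_ C₀ ⟶ N) (c : N ⟶ 𝟙_ C₀) :
    num (z ≫ c) = 0 ↔ z ≫ c = 0 := by
  have := R_charZero R₀
  constructor
  · intro h
    rw [num_spec hC₀ (z ≫ c), h, zero_smul]
  · intro h
    have h1 := num_eq R₀ hC₀ (z ≫ c) (𝟙 _)
    rw [Category.comp_id, h] at h1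
    have h2 : cl R₀ (0 : 𝟙_ C₀ ⟶ 𝟙_ C₀) = 0 := by
      have := cl_sub R₀ (0 : 𝟙_ C₀ ⟶ 𝟙_ C₀) 0
      rwa [sub_self, sub_self] at this
    rw [h2, map_zero] at h1
    rw [h]
    exact_mod_cast h1

/-- the pairing -/
noncomputable def pair (hC₀ : RationalUnit C₀) (N : C₀) :
    (𝟙_ C₀ ⟶ N) →ₗ[ℚ] (N ⟶ 𝟙_ C₀) →ₗ[ℚ] ℚ :=
  haveI := R_charZero R₀
  LinearMap.mk₂ ℚ (fun z c => num (z ≫ c))
    (by
      intro m₁ m₂ c
      apply Rat.cast_injective (α := K₀)
      rw [Rat.cast_add, num_eq R₀ hC₀, num_eq R₀ hC₀, num_eq R₀ hC₀, cl_add, map_add])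
    (by
      intro r m c
      apply Rat.cast_injective (α := K₀)
      rw [smul_eq_mul, Rat.cast_mul, num_eq R₀ hC₀, num_eq R₀ hC₀, cl_smul, map_smul, smul_eq_mul])
    (by
      intro m c₁ c₂
      apply Rat.cast_injective (α := K₀)
      rw [Rat.cast_add, num_eq R₀ hC₀, num_eq R₀ hC₀, num_eq R₀ hC₀, fn_add, LinearMap.add_apply])
    (by
      intro r m c
      apply Rat.cast_injective (α := K₀)
      rw [smul_eq_mul, Rat.cast_mul, num_eq R₀ hC₀, num_eq R₀ hC₀, fn_smul, LinearMap.smul_apply,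
        smul_eq_mul])

lemma pair_apply (hC₀ : RationalUnit C₀) (z : 𝟙_ C₀ ⟶ N) (c : N ⟶ 𝟙_ C₀) :
    pair R₀ hC₀ N z c = num (z ≫ c) := rfl

include R₀ in
lemma numZero_iff (hC₀ : RationalUnit C₀) (z : 𝟙_ C₀ ⟶ N) : NumZero z ↔ pair R₀ hC₀ N z = 0 := by
  constructor
  · intro h
    refine LinearMap.ext fun c => ?_
    rw [pair_apply, (num_zero_iff R₀ hC₀ z c).2 (h c), LinearMap.zero_apply]
  · intro h c
    rw [← num_zero_iff R₀ hC₀, ← pair_apply R₀ hC₀, h, LinearMap.zero_apply]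

include R₀ in
theorem duality (hC₀ : RationalUnit C₀) (r : B ⟶ N) (y : 𝟙_ C₀ ⟶ N)
    (h : ∀ c : N ⟶ 𝟙_ C₀, (∀ z : 𝟙_ C₀ ⟶ B, z ≫ r ≫ c = 0) → y ≫ c = 0) :
    ∃ z : 𝟙_ C₀ ⟶ B, NumZero (y - z ≫ r) := by
  have := R_charZero R₀
  have := R₀.finite N
  obtain ⟨z, hz⟩ := (finite_and_exists (K := K₀) (H := Module.Dual K₀ (R₀.H.obj N))
    (fun z : 𝟙_ C₀ ⟶ B => Module.Dual.eval K₀ (R₀.H.obj N) (cl R₀ (z ≫ r)))
    (fun c : N ⟶ 𝟙_ C₀ => (fn R₀ c : Module.Dual K₀ (R₀.H.obj N)))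
    ((pair R₀ hC₀ N) ∘ₗ (Linear.rightComp ℚ (𝟙_ C₀) r))
    (fun z c => num_eq R₀ hC₀ (z ≫ r) c)).2 (pair R₀ hC₀ N y) (by
      intro c hc
      rw [pair_apply, num_zero_iff R₀ hC₀]
      refine h c fun z => ?_
      have h1 : num ((z ≫ r) ≫ c) = 0 := hc z
      rw [num_zero_iff R₀ hC₀, Category.assoc] at h1
      exact h1)
  refine ⟨z, ?_⟩
  rw [numZero_iff R₀ hC₀, map_sub, ← hz, sub_eq_zero]
  rfl

lemma numZero_of_cl (hC₀ : RationalUnit C₀) {z : 𝟙_ C₀ ⟶ N} (h : cl R₀ z = 0) : NumZero z := by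
  have := R_charZero R₀
  intro c
  rw [← num_zero_iff R₀ hC₀]
  have h1 := num_eq R₀ hC₀ z c
  rw [h, map_zero] at h1
  exact_mod_cast h1

theorem finite_range (hC₀ : RationalUnit C₀) :
    Module.Finite ℚ (LinearMap.range (pair R₀ hC₀ N)) := by
  have := R_charZero R₀
  have := R₀.finite N
  exact (finite_and_exists (K := K₀) (H := Module.Dual K₀ (R₀.H.obj N))
    (fun z : 𝟙_ C₀ ⟶ N => Module.Dual.eval K₀ (R₀.H.obj N) (cl R₀ z))
    (fun c : N ⟶ 𝟙_ C₀ => (fn R₀ c : Module.Dual K₀ (R₀.H.obj N)))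
    (pair R₀ hC₀ N) (fun z c => num_eq R₀ hC₀ z c)).1

/-- the rank in terms of the pairing -/
theorem matRank_eq (hC₀ : RationalUnit C₀) (Z : Submodule ℚ (𝟙_ C₀ ⟶ N)) :
    matRank (Z : Set (𝟙_ C₀ ⟶ N)) = Module.finrank ℚ (Z.map (pair R₀ hC₀ N)) := by
  let F : ((N ⟶ 𝟙_ C₀) →ₗ[ℚ] ℚ) →ₗ[ℚ] ((N ⟶ 𝟙_ C₀) → ℚ) :=
    { toFun := fun f => f
      map_add' := fun _ _ => rfl
      map_smul' := fun _ _ => rfl }
  have hF : Function.Injective F := fun f g h => LinearMap.ext fun c => congrFun h c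
  have h1 : Submodule.span ℚ ((fun z : 𝟙_ C₀ ⟶ N => fun c : N ⟶ 𝟙_ C₀ => num (z ≫ c)) ''
      (Z : Set (𝟙_ C₀ ⟶ N))) = (Z.map (pair R₀ hC₀ N)).map F := by
    rw [← Submodule.map_comp, ← Submodule.span_eq (Z.map (F ∘ₗ pair R₀ hC₀ N))]
    rfl
  rw [matRank, Set.finrank, h1]
  exact (Submodule.equivMapOfInjective F hF _).finrank_eq.symm

end One

section Fam

variable {C : Type u} [Category.{v} C] [Preadditive C] [Linear ℚ C] [MonoidalCategory C]
  [SymmetricCategory C]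
  {C₀ : Type u₀} [Category.{v₀} C₀] [Preadditive C₀] [Linear ℚ C₀] [MonoidalCategory C₀]
  [SymmetricCategory C₀] {K : Type w} [Field K] {K₀ : Type w₀} [Field K₀]
  {R : SuperRealisation C K} {R₀ : SuperRealisation C₀ K₀} {M : C} {T : Type} {F : T → C₀}
  {B : C₀}

theorem extends_iff (hC₀ : RationalUnit C₀) (S : Fam R R₀ M F B) (o : T) (y : 𝟙_ C₀ ⟶ F o) :
    Extends S o y ↔ Orthogonal S o y := by
  constructor
  · rintro ⟨z, hz⟩ c hc
    have h1 := hz c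
    rw [Preadditive.sub_comp, sub_eq_zero, Category.assoc, hc z] at h1
    exact h1
  · intro h
    exact duality R₀ hC₀ (S.r o) y h

theorem extends_of_alg (hC₀ : RationalUnit C₀) (S : Fam R R₀ M F B) (o : T) {v : R.H.obj M}
    (hv : S.IsFlat v) {y : 𝟙_ C₀ ⟶ F o} (hy : S.e o v = cl R₀ y) (h : IsAlg R M v) :
    Extends S o y := by
  obtain ⟨z, hz⟩ := S.descent v h hv
  refine ⟨z, numZero_of_cl R₀ hC₀ ?_⟩
  rw [cl_sub, ← hy, hz o, sub_self]

theorem alg_of_extends (S : Fam R R₀ M F B) (o : T) (hD : HomEqNum R₀ (F o)) {v : R.H.obj M}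
    {y : 𝟙_ C₀ ⟶ F o} (hy : S.e o v = cl R₀ y) (h : Extends S o y) : IsAlg R M v := by
  obtain ⟨z, hz⟩ := h
  obtain ⟨v', hv', -, he⟩ := S.generic z
  have h1 := hD _ hz
  rw [cl_sub, sub_eq_zero, ← hy, ← he o] at h1
  rw [(S.e o).injective h1]
  exact hv'

/-- The numerical criterion. -/
theorem criterion (hC₀ : RationalUnit C₀) (S : Fam R R₀ M F B) (o : T)
    (hD : HomEqNum R₀ (F o)) {v : R.H.obj M} (hv : S.IsFlat v) {y : 𝟙_ C₀ ⟶ F o}
    (hy : S.e o v = cl R₀ y) : [IsAlg R M v, Extends S o y, Orthogonal S o y].TFAE := by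
  tfae_have 1 → 2 := fun h => extends_of_alg hC₀ S o hv hy h
  tfae_have 2 → 1 := fun h => alg_of_extends S o hD hy h
  tfae_have 2 ↔ 3 := extends_iff hC₀ S o y
  tfae_finish

/-- `hom = num` for the images in the compactification gives the orthogonality. -/
theorem orthogonal_of_homEqNum (hC₀ : RationalUnit C₀) (S : Fam R R₀ M F B) (o : T)
    (hB : HomEqNumIn S o) {v : R.H.obj M} (hv : S.IsFlat v) {y : 𝟙_ C₀ ⟶ F o}
    (hy : S.e o v = cl R₀ y) : Orthogonal S o y := by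
  have := R_charZero R₀
  intro c hc
  obtain ⟨h, hh⟩ := S.fixed v hv
  rw [← num_zero_iff R₀ hC₀]
  have h1 := num_eq R₀ hC₀ y c
  rw [← hy, hh o] at h1
  have h2 : fn R₀ c ((R₀.H.map (S.r o)).hom h) = fn R₀ (S.r o ≫ c) h := by
    simp only [fn, Functor.map_comp]
    rfl
  have h3 : fn R₀ (S.r o ≫ c) = 0 := by
    rw [fn, hB c hc, Limits.zero_comp]
    rfl
  rw [h2, h3, LinearMap.zero_apply] at h1
  exact_mod_cast h1

theorem vhc_of_homEqNum (hC₀ : RationalUnit C₀) (S : Fam R R₀ M F B) (o : T)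
    (hD : HomEqNum R₀ (F o)) (hB : HomEqNumIn S o) : VHC S o := by
  rintro v hv ⟨y, hy⟩
  exact ((criterion hC₀ S o hD hv hy.symm).out 0 2).2
    (orthogonal_of_homEqNum hC₀ S o hB hv hy.symm)

/-- the flat algebraic classes as a submodule -/
noncomputable def flatSub (S : Fam R R₀ M F B) (o : T) : Submodule ℚ (𝟙_ C₀ ⟶ F o) where
  carrier := flatAlg S o
  zero_mem' := by
    refine ⟨0, fun g _ => map_zero _, ?_⟩
    have := cl_sub R₀ (0 : 𝟙_ C₀ ⟶ F o) 0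
    rw [sub_self, sub_self] at this
    rw [map_zero, this]
  add_mem' := by
    rintro x y ⟨v, hv, hx⟩ ⟨w, hw, hy⟩
    refine ⟨v + w, fun g hg => ?_, ?_⟩
    · rw [map_add, hv g hg, hw g hg]
    · rw [map_add, hx, hy, cl_add]
  smul_mem' := by
    rintro q x ⟨v, hv, hx⟩
    have := R_charZero R
    have := R_charZero R₀
    refine ⟨(q : K) • v, fun g hg => ?_, ?_⟩
    · rw [map_smul, hv g hg]
    · rw [map_ratCast_smul (S.e o) K K₀, hx, cl_smul]

/-- the restrictions as a submodule -/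
noncomputable def resSub (S : Fam R R₀ M F B) (o : T) : Submodule ℚ (𝟙_ C₀ ⟶ F o) :=
  LinearMap.range (Linear.rightComp ℚ (𝟙_ C₀) (S.r o))

theorem resSub_le (S : Fam R R₀ M F B) (o : T) : resSub S o ≤ flatSub S o := by
  rintro _ ⟨z, rfl⟩
  obtain ⟨v, -, hv, he⟩ := S.generic z
  exact ⟨v, hv, he o⟩

theorem rank_le (hC₀ : RationalUnit C₀) (S : Fam R R₀ M F B) (o : T) :
    matRank (restrictions S o) ≤ matRank (flatAlg S o) := by
  have h1 := finite_range R₀ (N := F o) hC₀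
  have h2 := matRank_eq R₀ hC₀ (resSub S o)
  have h3 := matRank_eq R₀ hC₀ (flatSub S o)
  change matRank (restrictions S o) = _ at h2
  change matRank (flatAlg S o) = _ at h3
  have h4 : Module.Finite ℚ ((flatSub S o).map (pair R₀ hC₀ (F o))) :=
    Submodule.finiteDimensional_of_le (LinearMap.map_le_range)
  rw [h2, h3]
  exact Submodule.finrank_mono (Submodule.map_mono (resSub_le S o))

theorem vhc_iff_rank (hC₀ : RationalUnit C₀) (S : Fam R R₀ M F B) (o : T)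
    (hD : HomEqNum R₀ (F o)) :
    VHC S o ↔ matRank (restrictions S o) = matRank (flatAlg S o) := by
  have h1 := finite_range R₀ (N := F o) hC₀
  have h2 := matRank_eq R₀ hC₀ (resSub S o)
  have h3 := matRank_eq R₀ hC₀ (flatSub S o)
  change matRank (restrictions S o) = _ at h2
  change matRank (flatAlg S o) = _ at h3
  have h4 : Module.Finite ℚ ((flatSub S o).map (pair R₀ hC₀ (F o))) :=
    Submodule.finiteDimensional_of_le (LinearMap.map_le_range)
  rw [h2, h3]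
  constructor
  · intro h
    have h5 : (flatSub S o).map (pair R₀ hC₀ (F o)) ≤ (resSub S o).map (pair R₀ hC₀ (F o)) := by
      rintro _ ⟨y, ⟨v, hv, hy⟩, rfl⟩
      obtain ⟨z, hz⟩ := extends_of_alg hC₀ S o hv hy (h v hv ⟨y, hy.symm⟩)
      rw [numZero_iff R₀ hC₀, map_sub, sub_eq_zero] at hz
      exact ⟨z ≫ S.r o, ⟨z, rfl⟩, hz.symm⟩
    rw [le_antisymm h5 (Submodule.map_mono (resSub_le S o))]
  · intro h
    have h5 := Submodule.eq_of_le_of_finrank_eq (Submodule.map_mono (resSub_le S o)) h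
    rintro v hv ⟨y, hy⟩
    have h6 : pair R₀ hC₀ (F o) y ∈ (resSub S o).map (pair R₀ hC₀ (F o)) := by
      rw [h5]
      exact ⟨y, ⟨v, hv, hy.symm⟩, rfl⟩
    obtain ⟨_, ⟨z, rfl⟩, hz⟩ := h6
    refine alg_of_extends S o hD hy.symm ⟨z, ?_⟩
    rw [numZero_iff R₀ hC₀, map_sub, ← hz, sub_eq_zero]
    rfl

end Fam

end Pool.Agent.Q26.VH
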